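import Pool.Agent.P.MP_59a3d4_lc.Defs
import Pool.Agent.P.MP_9014a2_lc.Defs

set_option autoImplicit false

namespace Pool.Agent.P.MP_59a3d4_lc.Sp

open Pool.Agent.P.MP_9014a2_lc (chi)

variable {F V : Type} [Field F] [AddCommGroup V] [Module F V] [Primcodable V]

/-- `V₁ ⊕ V₂ = V` with decidable summands, and `B` is a decidable basis of `V`. -/
structure IsInstance (V₁ V₂ : Submodule F V) (B : Set V) : Prop where
  compl : IsCompl V₁ V₂
  basis : IsBasisSet F B
  dec₁ : ComputablePred fun v => v ∈ V₁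
  dec₂ : ComputablePred fun v => v ∈ V₂
  decB : ComputablePred fun v => v ∈ B

/-- A sequence of decompositions `V₁ e ⊕ V₂ e = V` and bases `B e` of `V`, decidable uniformly
in `e`. -/
structure IsFamily (V₁ V₂ : ℕ → Submodule F V) (B : ℕ → Set V) : Prop where
  compl : ∀ e, IsCompl (V₁ e) (V₂ e)
  basis : ∀ e, IsBasisSet F (B e)
  dec₁ : ComputablePred fun x : ℕ × V => x.2 ∈ V₁ x.1
  dec₂ : ComputablePred fun x : ℕ × V => x.2 ∈ V₂ x.1
  decB : ComputablePred fun x : ℕ × V => x.2 ∈ B x.1

open Classical in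
/-- The set of code numbers of the vectors in `S`. -/
noncomputable def code (S : Set V) : ℕ → Bool := fun n => decide (n ∈ Encodable.encode '' S)

/-- The list of the first `n` values of `f`. -/
def ini (f : ℕ → ℕ) (n : ℕ) : List ℕ := (List.range n).map f

/-- The sets that are Turing equivalent to the part `B₂` of some good splitting. -/
def Spec (V₁ V₂ : Submodule F V) (B : Set V) : Set (ℕ → Bool) :=
  {Z | ∃ B₁ B₂, IsGoodSplitting V₁ V₂ B B₁ B₂ ∧ TuringEquivalent (chi Z) (chi (code B₂))}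

/-- The sets that compute an infinite path of `T`, that is a sequence all of whose initial segments
lie in `T`. -/
def Up (T : Set (List ℕ)) : Set (ℕ → Bool) :=
  {Z | ∃ f : ℕ → ℕ, (∀ n, ini f n ∈ T) ∧ TuringReducible (fun n => Part.some (f n)) (chi Z)}

/-- `A` is lightface analytic, in the normal form of Kleene. -/
def IsSigma11 (A : Set ℕ) : Prop :=
  ∃ R : ℕ × List ℕ → Prop, ComputablePred R ∧ ∀ e, e ∈ A ↔ ∃ f : ℕ → ℕ, ∀ n, R (e, ini f n)

end Pool.Agent.P.MP_59a3d4_lc.Sp
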