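import Pool.Agent.P.MP_59a3d4_lc.Sp.Lin
import Pool.Agent.P.MP_59a3d4_lc.Sp.Defs
import Pool.Agent.P.MP_9014a2_lc.Core

/-! Effective linear algebra relative to an oracle. -/

set_option autoImplicit false
set_option linter.unusedSectionVars false

open Submodule Module Set Encodable
open Pool.Agent.P.MP_9014a2_lc Pool.Agent.Lib.Helper43

namespace Pool.Agent.P.MP_59a3d4_lc.Sp

variable {F V ι α β : Type} [Field F] [AddCommGroup V] [Module F V] [Primcodable F] [Primcodable V]
  [Primcodable ι] [Primcodable α] [Primcodable β] {X : ℕ → Bool}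

/-- The empty oracle. -/
def O0 : ℕ → Bool := fun _ => false

lemma ci_comp {f : α → β} (hf : CI X f) (hX : Computable X) : Computable f := by
  have h1 : Partrec (chi X) := (CFP.comp (Primrec.dom_bool Bool.toNat).to_comp hX).partrec
  exact RecursiveIn.partrec_of_oracle (by rintro g rfl; exact h1) (ci_iff.1 hf)

lemma ci0 {f : α → β} (hf : CI O0 f) : Computable f := ci_comp hf (Computable.const _)

lemma di_of {p : α → Prop} (hp : ComputablePred p) : DI X p := by
  classical
  exact DI.of_bool (CI.of_comp hp.decide) (by simp)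

lemma di0 {p : α → Prop} (hp : DI O0 p) : ComputablePred p := by
  obtain ⟨f, hf, e⟩ := hp.exists_bool
  exact ComputablePred.computable_iff.2 ⟨f, ci0 hf, funext fun a => propext (e a)⟩

lemma di_nodup : DI X fun l : List ι => l.Nodup := by
  classical
  exact DI.of_bool (CI.of_comp (CFP.decNodup (inst := inferInstance) Computable.id)) (by simp)

variable (F) in
/-- The list of vectors is linearly independent. -/
def LI (l : List V) : Prop := LinearIndependent F l.get

lemma di_li (h : IsVInfinity F V) : DI X (LI F (V := V)) :=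
  (di_of h.dependence).not.of_iff fun _ => not_not

lemma li_map {x : ι → V} {l : List ι} (hl : l.Nodup) :
    LI F (l.map x) ↔ LinearIndepOn F x {i | i ∈ l} := by
  induction l with
  | nil => exact iff_of_true li_nil (by simp)
  | cons i l ih =>
    rw [List.nodup_cons] at hl
    have e1 : {j | j ∈ i :: l} = insert i {j | j ∈ l} := by ext; simp
    have e2 : {v | v ∈ l.map x} = x '' {j | j ∈ l} := by ext; simp
    rw [List.map_cons, LI, li_cons, e1, linearIndepOn_insert (s := {j | j ∈ l}) hl.1, ← ih hl.2, e2,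
      LI]

lemma dep_iff {x : ι → V} {l : List ι} (hl : LI F (l.map x)) {v : V} :
    ¬ LI F (v :: l.map x) ↔ v ∈ span F (x '' {i | i ∈ l}) := by
  have e2 : {v | v ∈ l.map x} = x '' {j | j ∈ l} := by ext; simp
  rw [LI, li_cons, e2, and_iff_right (show LinearIndependent F _ from hl), not_not]

/-- The span of a decidable part of a computable basis is decidable. -/
lemma di_span (h : IsVInfinity F V) {x : α → ι → V} (hx : ∀ a, IsB F (x a))
    (cx : CI X fun q : α × ι => x q.1 q.2) {p : α → ι → Prop}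
    (hp : DI X fun q : α × ι => p q.1 q.2) {v : α → V} (hv : CI X v) :
    DI X fun a => v a ∈ span F (x a '' {i | p a i}) := by
  classical
  have h1 := di_li (X := X) h
  have h2 := di_nodup (X := X) (ι := ι)
  obtain ⟨l, hl, e⟩ := Sig.choose (X := X)
    (r := fun a (l : List ι) => l.Nodup ∧ ¬ LI F (v a :: l.map (x a))) (Sig.of_di (by fun_prop))
    fun a => by
      refine ⟨((hx a).bs.repr (v a)).support.toList, Finset.nodup_toList _, ?_⟩
      rw [dep_iff ((li_map (Finset.nodup_toList _)).2 ((hx a).1.linearIndepOn _)), (hx a).mem]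
      intro i hi
      simpa using hi
  refine DI.of_iff (p := fun a => ¬ LI F (v a :: ((l a).filter fun i => decide (p a i)).map (x a)))
    (by fun_prop) fun a => ?_
  have h3 := (e a).2
  rw [dep_iff ((li_map (e a).1).2 ((hx a).1.linearIndepOn _)), (hx a).mem] at h3
  rw [dep_iff ((li_map ((e a).1.filter _)).2 ((hx a).1.linearIndepOn _)), (hx a).mem, (hx a).mem]
  refine forall_congr' fun i => ?_
  have := h3 i
  simp only [mem_ofPred_eq, List.mem_filter, decide_eq_true_eq] at this ⊢
  tauto

lemma di_range (h : IsVInfinity F V) {x : α → ι → V} (hx : ∀ a, IsB F (x a))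
    (cx : CI X fun q : α × ι => x q.1 q.2) : DI X fun q : α × V => q.2 ∈ range (x q.1) := by
  refine (di_span h (x := fun q : α × V => x q.1) (fun q => hx q.1) (by fun_prop)
    (p := fun q i => x q.1 i ≠ q.2) (by fun_prop) (v := fun q => q.2) (by fun_prop)).not.of_iff
    fun q => ⟨fun h1 => by_contra fun h2 => h1 ?_, ?_⟩
  · exact (hx q.1).mem.2 fun i hi => (h2 ⟨i, not_not.1 hi⟩).elim
  · rintro ⟨i, hi⟩ h1
    have := (hx q.1).mem.1 h1 i (not_not.2 hi)
    simp [← hi, (hx q.1).coord] at this

/-- The vector with a given code. -/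
def vec (n : ℕ) : V := (decode n).getD 0

@[simp] lemma vec_encode (v : V) : vec (encode v) = v := by simp [vec]

lemma comp_vec : Computable (vec (V := V)) :=
  Computable.option_getD Computable.decode (Computable.const 0)

lemma code_iff {S : Set V} {n : ℕ} : code S n = true ↔ vec n ∈ S ∧ encode (vec n : V) = n := by
  simp only [code, decide_eq_true_eq]
  exact ⟨by rintro ⟨v, h, rfl⟩; simpa using h, fun h => ⟨_, h⟩⟩

lemma red_code {b : ι → V} (hb : Function.Injective b) (cb : Computable b)
    (hr : ComputablePred fun v => v ∈ range b) (S : ι → Bool) :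
    Red (code (b '' {k | S k = true})) X ↔ CI X S := by
  constructor
  · intro h
    refine (CI.comp h (g := fun i => encode (b i)) (by fun_prop)).of_eq fun i => ?_
    rw [Bool.eq_iff_iff, code_iff]
    simp [hb.eq_iff]
  · intro h
    have h1 := di_of (X := X) hr
    have h2 := comp_vec (V := V)
    have h3 : DI X fun n => code (b '' {k | S k = true}) n = true := by
      refine Sig.post (Sig.of_iff (p := fun n => ∃ i, encode (b i) = n ∧ S i = true)
        (Sig.ex (Sig.of_di (by fun_prop))) fun n => ?_) (Sig.of_iff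
        (p := fun n => (¬ vec n ∈ range b ∨ encode (vec n : V) ≠ n) ∨
          ∃ i, encode (b i) = n ∧ S i = false)
        (Sig.or (Sig.of_di (by fun_prop)) (Sig.ex (Sig.of_di (by fun_prop)))) fun n => ?_)
      · simp [code, and_comm]
      · rw [code_iff]
        constructor
        · rintro ((h4 | h4) | ⟨i, rfl, h4⟩) h5
          · exact h4 (image_subset_range _ _ h5.1)
          · exact h4 h5.2
          · simp [hb.eq_iff, h4] at h5
        · intro h4
          by_contra h5
          push Not at h5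
          obtain ⟨⟨⟨i, hi⟩, h6⟩, h7⟩ := h5
          exact h4 ⟨⟨i, by simpa using h7 i (hi ▸ h6), hi⟩, h6⟩
    exact (CI.decide (inst := inferInstance) h3).of_eq (by simp)

lemma comp_sub (h : IsVInfinity F V) : Computable fun p : V × V => p.1 - p.2 := by
  have : Computable (fun x : V × V => x.1 + (-1 : F) • x.2) :=
    h.add.comp Computable.fst (h.smul.comp (Computable.const (-1)) Computable.snd)
  exact this.of_eq fun x => by simp [sub_eq_add_neg]

/-- The system of pairs of a family of instances. -/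
lemma pairs (h : IsVInfinity F V) {V₁ V₂ : ℕ → Submodule F V} {B : ℕ → Set V}
    (hF : IsFamily V₁ V₂ B) : ∃ u w : ℕ → ℕ → V, (Computable fun q : ℕ × ℕ => u q.1 q.2) ∧
      (Computable fun q : ℕ × ℕ => w q.1 q.2) ∧ ∀ e, (∀ k, u e k ∈ V₁ e) ∧ (∀ k, w e k ∈ V₂ e) ∧
        IsB F (fun k => u e k - w e k) ∧ range (fun k => u e k - w e k) = B e := by
  classical
  have h1 := di_of (X := O0) hF.dec₁
  have h2 := di_of (X := O0) hF.dec₂
  have h3 := di_of (X := O0) hF.decB
  have h4 := comp_vec (V := V)
  have h5 := comp_sub h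
  let P : ℕ → ℕ → Prop := fun e n => vec n ∈ B e ∧ encode (vec n : V) = n
  have hP : DI O0 fun q : ℕ × ℕ => P q.1 q.2 :=
    (h3.comp (g := fun q : ℕ × ℕ => (q.1, vec q.2)) (by fun_prop)).and (by fun_prop)
  have inf : ∀ e, {n | P e n}.Infinite := fun e hf => by
    have : Module.Finite F V := ⟨Submodule.fg_def.2 ⟨_, (hf.image vec).subset fun v hv =>
      ⟨encode v, by simpa [P] using hv, vec_encode v⟩, (hF.basis e).2⟩⟩
    exact absurd h.rank_eq (Module.rank_lt_aleph0 F V).ne
  have cn : CI O0 fun q : ℕ × ℕ => Nat.nth (P q.1) q.2 := by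
    refine CI.of_graph (Sig.of_di (DI.of_iff (p := fun x : (ℕ × ℕ) × ℕ => P x.1.1 x.2 ∧
      ((List.range x.2).filter fun n => decide (P x.1.1 n)).length = x.1.2) (by fun_prop) ?_))
    rintro ⟨⟨e, k⟩, n⟩
    rw [← List.countP_eq_length_filter]
    dsimp only
    exact ⟨fun h => h.2 ▸ Nat.nth_count h.1, by
      rintro rfl
      exact ⟨Nat.nth_mem_of_infinite (inf e) k, Nat.count_nth_of_infinite (inf e) k⟩⟩
  let b : ℕ → ℕ → V := fun e k => vec (Nat.nth (P e) k)
  have cb : CI O0 fun q : ℕ × ℕ => b q.1 q.2 := by fun_prop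
  have rb : ∀ e, range (b e) = B e := fun e => Set.ext fun v => ⟨by
    rintro ⟨k, rfl⟩
    exact (Nat.nth_mem_of_infinite (inf e) k).1, fun hv => ⟨Nat.count (P e) (encode v), by
      simp only [b]
      rw [Nat.nth_count (by simpa [P] using hv), vec_encode]⟩⟩
  have ib : ∀ e, Function.Injective (b e) := fun e i j hij => Nat.nth_injective (inf e) (by
    rw [← (Nat.nth_mem_of_infinite (inf e) i).2, ← (Nat.nth_mem_of_infinite (inf e) j).2]
    exact congrArg encode hij)
  obtain ⟨u, cu, hu⟩ := Sig.choose (X := O0)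
    (r := fun (q : ℕ × ℕ) (z : V) => z ∈ V₁ q.1 ∧ z - b q.1 q.2 ∈ V₂ q.1)
    (Sig.of_di ((h1.comp (g := fun x : (ℕ × ℕ) × V => (x.1.1, x.2)) (by fun_prop)).and
      (h2.comp (g := fun x : (ℕ × ℕ) × V => (x.1.1, x.2 - b x.1.1 x.1.2)) (by fun_prop))))
    fun q => ⟨_, projection_apply_mem (hF.compl q.1) (b q.1 q.2), by
      rw [← neg_sub]
      exact neg_mem (sub_projection_mem _ _)⟩
  refine ⟨fun e k => u (e, k), fun e k => u (e, k) - b e k, ci0 cu, ci0 (by fun_prop), fun e =>
    ⟨fun k => (hu (e, k)).1, fun k => (hu (e, k)).2, ?_, ?_⟩⟩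
  · simp only [sub_sub_cancel]
    exact ⟨(linearIndepOn_id_range_iff (ib e)).1 (rb e ▸ (hF.basis e).1), rb e ▸ (hF.basis e).2⟩
  · simpa only [sub_sub_cancel] using rb e

lemma ini_getD (f : ℕ → ℕ) {n i : ℕ} (h : i < n) : (ini f n).getD i 0 = f i := by
  simp [List.getD_eq_getElem?_getD, ini, h]

/-- The tree of a condition with the quantifiers for all, exists. -/
lemma tree {Q : ℕ → List Bool → ℕ → Prop} (hQ : DI O0 fun x : ℕ × List Bool × ℕ => Q x.1 x.2.1 x.2.2) :
    ∃ R : ℕ × List ℕ → Prop, ComputablePred R ∧ ∀ e,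
      (∀ f, (∀ n, R (e, ini f n)) → ∃ S, (∀ n, ∃ m, Q e (seg S m) n) ∧ ∀ X, CI X f → CI X S) ∧
      ∀ S, (∀ n, ∃ m, Q e (seg S m) n) → ∃ f, (∀ n, R (e, ini f n)) ∧ CI S f := by
  let g : ℕ → Bool := fun x => x.unpair.1.bodd
  have key : ∀ (f : ℕ → ℕ) n m, m ≤ n → ((ini f n).map g).take m = seg (fun i => g (f i)) m :=
    fun f n m h => by
      rw [← seg_take _ h, ini, List.map_map]
      rfl
  refine ⟨fun x => ∀ n < x.2.length, (x.2.getD n 0).unpair.2 ≤ x.2.length →
    Q x.1 ((x.2.map g).take (x.2.getD n 0).unpair.2) n, di0 (DI.allLt (DI.imp (by fun_prop)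
      (hQ.comp (g := fun y : (ℕ × List ℕ) × ℕ =>
        (y.1.1, (y.1.2.map g).take (y.1.2.getD y.2 0).unpair.2, y.2)) (by fun_prop))) (by fun_prop)),
    fun e => ⟨fun f hf => ⟨fun i => g (f i), fun n => ⟨(f n).unpair.2, ?_⟩,
      fun X hX => by fun_prop⟩, fun S hS => ?_⟩⟩
  · have := hf (n + 1 + (f n).unpair.2) n (by simp [ini]; omega)
    simp only [ini_getD f (show n < n + 1 + (f n).unpair.2 by omega)] at this
    rw [← key f (n + 1 + (f n).unpair.2) _ (by omega)]
    exact this (by simp [ini])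
  · have h1 : CI S S := CI.oracle
    obtain ⟨m, cm, hm⟩ := Sig.choose (X := S) (r := fun n m => Q e (seg S m) n)
      (Sig.of_di ((hQ.mono (CI.const _)).comp (g := fun y : ℕ × ℕ => (e, seg S y.2, y.1))
        (by fun_prop))) hS
    refine ⟨fun n => Nat.pair (bif S n then 1 else 0) (m n), fun n i hi h2 => ?_, by fun_prop⟩
    have l : ∀ f, (ini f n).length = n := fun f => by simp [ini]
    rw [l] at hi h2
    simp only [ini_getD _ hi, Nat.unpair_pair] at h2 ⊢
    rw [key _ _ _ h2]
    convert hm i using 2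
    ext j
    cases h : S j <;> simp [g]

end Pool.Agent.P.MP_59a3d4_lc.Sp
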