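import Pool.Agent.P.MP_59a3d4_lc.Sp.Eff

/-! The instance attached to a tree. -/

set_option autoImplicit false
set_option linter.unusedSectionVars false

open Submodule Module Set
open Pool.Agent.P.MP_9014a2_lc Pool.Agent.Lib.Helper43

namespace Pool.Agent.P.MP_59a3d4_lc.Sp

variable {F V ι : Type} [Field F] [AddCommGroup V] [Module F V]

section double

variable {E : ι × Bool → V} {u w : ι → V}

/-- First members of the doubled system. -/
def dU (u w : ι → V) (p : ι × Bool) : V := bif p.2 then u p.1 else w p.1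

/-- Second members of the doubled system. -/
def dW (E : ι × Bool → V) (p : ι × Bool) : V := -E (p.1, false)

/-- The selection of the doubled system given by a selection of the original one. -/
def dS (S : ι → Bool) (p : ι × Bool) : Bool := p.2 == S p.1

lemma sel_d (S : ι → Bool) (v : ι) : sel (dU u w) (dW E) (dS S) (v, S v) = sel u w S v := by
  simp [sel, dS, dU]

lemma sel_d' (S : ι → Bool) (v : ι) : sel (dU u w) (dW E) (dS S) (v, !S v) = -E (v, false) := by
  simp [sel, dS, dW]

lemma d_cases (S : ι → Bool) (p : ι × Bool) : ∃ v, p = (v, S v) ∨ p = (v, !S v) := by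
  obtain ⟨v, β⟩ := p
  exact ⟨v, by cases β <;> cases S v <;> simp⟩

lemma d_shape (hE : IsB F E) (hU : ∀ p, dU u w p ∈ span F (E '' {p | p.2 = true}))
    {T : ι × Bool → Bool} (h : IsB F (sel (dU u w) (dW E) T)) : T = dS fun v => T (v, true) := by
  classical
  have key : ∀ v, T (v, false) = !T (v, true) := fun v => by
    cases e1 : T (v, true) <;> cases e2 : T (v, false) <;> try rfl
    · simpa using h.1.injective (a₁ := (v, true)) (a₂ := (v, false)) (by simp [sel, e1, e2, dW])
    · have := h.dual (hE.bs.coord (v, false)) (fun p => ?_) (E (v, false))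
      · simp [hE.coord] at this
      cases e : T p
      · have : p.1 ≠ v := by
          rintro rfl
          obtain ⟨v, _ | _⟩ := p <;> simp_all
        simp only [sel, e, cond_false, dW, map_neg, hE.coord]
        simp [this]
      · simpa only [sel, e, cond_true] using hE.mem.1 (hU p) _ (by simp)
  funext ⟨v, β⟩
  cases β <;> simp [dS, key]

lemma d_li {S : ι → Bool} (h : IsB F (sel (dU u w) (dW E) (dS S))) :
    LinearIndependent F (sel u w S) := by
  have := h.1.comp (fun v => (v, S v)) fun _ _ e => congrArg Prod.fst e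
  rwa [show sel (dU u w) (dW E) (dS S) ∘ (fun v => (v, S v)) = _ from funext (sel_d S)] at this

lemma d_tri (hE : IsB F E) (S : ι → Bool) (σ : ι → ι) (hσ : Function.Bijective σ) (rk : ι → ℕ)
    (c : ι → F) (hc : ∀ v, c v ≠ 0) (h : ∀ v, sel u w S v - c v • E (σ v, true) ∈
      span F (E '' {p | p.2 = true ∧ rk p.1 < rk (σ v)})) : IsB F (sel (dU u w) (dW E) (dS S)) := by
  refine hE.tri (fun p => bif dS S p then (σ p.1, true) else (p.1, false)) ⟨fun p q e => ?_, ?_⟩
    (fun p => bif p.2 then rk p.1 else 0) (fun p => bif dS S p then c p.1 else -1)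
    (fun p => by cases dS S p <;> simp [hc]) fun p => ?_
  · obtain ⟨v, rfl | rfl⟩ := d_cases S p <;> obtain ⟨z, rfl | rfl⟩ := d_cases S q <;>
      simp_all [dS, hσ.1.eq_iff]
  · rintro ⟨v, _ | _⟩
    · exact ⟨(v, !S v), by simp [dS]⟩
    · obtain ⟨z, rfl⟩ := hσ.2 v
      exact ⟨(z, S z), by simp [dS]⟩
  · obtain ⟨v, rfl | rfl⟩ := d_cases S p
    · simp only [sel_d, dS, beq_self_eq_true, cond_true]
      exact span_mono (image_mono fun p hp => by simpa [hp.1] using hp.2) (h v)
    · rw [sel_d']
      simp [dS]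

lemma d_basis (hE : IsB F E) (hw : ∀ v, w v ∈ span F (E '' {p | p.2 = true})) (rk : ι → ℕ)
    (h : ∀ v, u v - w v - E (v, true) ∈ span F (E '' {p | p.2 = true ∧ rk p.1 < rk v})) :
    IsB F fun p => dU u w p - dW E p := by
  have h1 : IsB F fun p => bif p.2 then E p else w p.1 + E p :=
    hE.tri id Function.bijective_id (fun p => bif p.2 then 0 else 1) 1 (by simp) (by
      rintro ⟨v, _ | _⟩
      · simpa using span_mono (image_mono fun p hp => by simp [show p.2 = true from hp]) (hw v)
      · simp)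
  refine h1.tri id Function.bijective_id (fun p => bif p.2 then rk p.1 + 1 else 0) 1 (by simp) ?_
  rintro ⟨v, _ | _⟩
  · simp [dU, dW]
  · have e : u v - -E (v, false) - E (v, true) = u v - w v - E (v, true) + (w v + E (v, false)) := by
      abel
    simp only [dU, dW, cond_true, Pi.one_apply, id, one_smul, e]
    refine add_mem (span_mono ?_ (h v)) (subset_span ⟨(v, false), by simp, rfl⟩)
    rintro _ ⟨p, hp, rfl⟩
    exact ⟨p, by simpa [hp.1] using hp.2, by simp [hp.1]⟩

end double

/-- The nodes: a ray, with trees below its points. -/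
abbrev Nd := ℕ × List ℕ

/-- The parent of a node. -/
def par (v : Nd) : Nd := if v.2 = [] then (v.1 + 1, []) else (v.1, v.2.tail)

@[simp] lemma par_nil (n : ℕ) : par (n, []) = (n + 1, []) := rfl

@[simp] lemma par_cons (n x : ℕ) (l : List ℕ) : par (n, x :: l) = (n, l) := rfl

/-- The nodes of the ray that can be changed freely. -/
def qn (t : Bool) (v : Nd) : Prop := v.2 = [] ∧ (t = false ∨ v.1 % 2 = 1)

/-- The active nodes. -/
def act (A : List ℕ → Prop) (v : Nd) : Prop := v.2 = [] ∨ v.1 = 0 ∧ A v.2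

open Classical in
/-- First members of the pairs. -/
noncomputable def gu (E : Nd × Bool → V) (t : Bool) (v : Nd) : V :=
  E (v, true) - if qn t v then E (par v, true) else 0

open Classical in
/-- Second members of the pairs. -/
noncomputable def gw (E : Nd × Bool → V) (A : List ℕ → Prop) (v : Nd) : V :=
  if act A v then -E (par v, true) else 0

variable {E : Nd × Bool → V} {t : Bool} {A : List ℕ → Prop} {S : Nd → Bool}

lemma g_mem (p : Nd × Bool) : dU (gu E t) (gw E A) p ∈ span F (E '' {p | p.2 = true}) := by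
  have : ∀ v, E (v, true) ∈ span F (E '' {p | p.2 = true}) := fun v => subset_span ⟨_, rfl, rfl⟩
  obtain ⟨v, _ | _⟩ := p
  · simp only [dU, cond_false, gw]
    split_ifs <;> simp [this]
  · simp only [dU, cond_true, gu]
    split_ifs <;> simp [this, sub_mem]

lemma g_basis (hE : IsB F E) : IsB F fun p => dU (gu E t) (gw E A) p - dW E p := by
  refine d_basis hE (fun v => g_mem (t := t) (v, false))
    (fun v => if v.2 = [] then (v.1 + 1) % 2 else v.2.length + 1) fun v => ?_
  by_cases h : qn t v
  · simp [gu, gw, h, show act A v from Or.inl h.1]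
  · by_cases h1 : act A v
    · simp only [gu, gw, if_neg h, if_pos h1, sub_zero, sub_neg_eq_add, add_sub_cancel_left]
      refine subset_span ⟨_, ⟨rfl, ?_⟩, rfl⟩
      obtain ⟨n, _ | ⟨x, _ | l⟩⟩ := v <;> simp [qn] at h ⊢ <;> omega
    · simp [gu, gw, h, h1]

lemma g_triv (hE : IsB F E) : IsB F (sel (dU (gu E true) (gw E A)) (dW E) (dS fun _ => true)) := by
  classical
  refine d_tri hE _ id Function.bijective_id (fun v => if qn true v then 1 else 0) 1 (by simp)
    fun v => ?_
  by_cases h : qn true v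
  · simp only [sel, cond_true, gu, if_pos h, Pi.one_apply, one_smul, id, sub_sub_cancel_left]
    refine neg_mem (subset_span ⟨_, ⟨rfl, ?_⟩, rfl⟩)
    obtain ⟨n, _ | _⟩ := v <;> simp [qn] at h ⊢
    omega
  · simp [sel, gu, h]

/-- The reversed initial segments. -/
def rev (f : ℕ → ℕ) (n : ℕ) : List ℕ := (ini f n).reverse

lemma rev_succ (f : ℕ → ℕ) (n : ℕ) : rev f (n + 1) = f n :: rev f n := by
  simp [rev, ini, List.range_succ]

@[simp] lemma rev_length (f : ℕ → ℕ) (n : ℕ) : (rev f n).length = n := by simp [rev, ini]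

/-- The selection attached to a path and a set. -/
def gS (f : ℕ → ℕ) (Z : ℕ → Bool) (v : Nd) : Bool :=
  if v.2 = [] then decide (v.1 % 2 = 1) && Z (v.1 / 2)
  else decide (¬ (v.1 = 0 ∧ v.2 = rev f v.2.length))

lemma g_path (hE : IsB F E) {f : ℕ → ℕ} (hf : ∀ n, A (rev f (n + 1))) (Z : ℕ → Bool) :
    IsB F (sel (dU (gu E t) (gw E A)) (dW E) (dS (gS f Z))) := by
  classical
  let L : Nd → Prop := fun v => v.2 = [] ∨ v.1 = 0 ∧ v.2 = rev f v.2.length
  have l0 : ∀ n, L (n, []) := fun n => Or.inl rfl
  have l1 : ∀ n x l, L (n, x :: l) ↔ n = 0 ∧ x = f l.length ∧ l = rev f l.length := by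
    simp [L, rev_succ]
  have l2 : ∀ l, l = rev f l.length → L (0, l) := fun l h => Or.inr ⟨rfl, h⟩
  refine d_tri hE _ (fun v => if L v then par v else v) (Function.bijective_iff_has_inverse.2
    ⟨fun v => if L v then if v.1 = 0 then (0, f v.2.length :: v.2) else (v.1 - 1, []) else v,
      ?_, ?_⟩) (fun v => if v.2 = [] then v.1 else 0) (fun v => if L v then -1 else 1)
    (fun v => by split_ifs <;> simp) ?_
  · rintro ⟨n, _ | ⟨x, l⟩⟩
    · simp [l0]
    · by_cases h : L (n, x :: l)
      · obtain ⟨rfl, rfl, h1⟩ := (l1 _ _ _).1 h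
        simp [h, l2 l h1]
      · simp [h]
  · rintro ⟨_ | n, l⟩
    · by_cases h : L (0, l)
      · have : L (0, f l.length :: l) :=
          (l1 _ _ _).2 ⟨rfl, rfl, h.elim (by rintro rfl; rfl) And.right⟩
        simp [h, this]
      · simp [h]
    · by_cases h : L (n + 1, l)
      · obtain rfl : l = [] := by simpa [L] using h
        simp [l0]
      · simp [h]
  · rintro ⟨n, _ | ⟨x, l⟩⟩
    · cases e : gS f Z (n, [])
      · simp [sel, e, l0, gw, act]
      · have : qn t (n, []) := ⟨rfl, Or.inr (by simp [gS] at e; exact e.1)⟩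
        simp only [sel, e, cond_true, gu, if_pos this, if_pos (l0 n), neg_smul, one_smul,
          sub_neg_eq_add, sub_add_cancel]
        exact subset_span ⟨_, by simp, rfl⟩
    · by_cases h : L (n, x :: l)
      · have h1 := h.resolve_left (by simp)
        have h2 : act A (n, x :: l) := Or.inr ⟨h1.1, h1.2 ▸ hf _⟩
        have : gS f Z (n, x :: l) = false := by simpa [gS] using h1
        simp [sel, this, gw, h, h2]
      · have : gS f Z (n, x :: l) = true := by simpa [gS, L, imp_iff_not_or] using h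
        simp [sel, this, gu, h, qn]

section necessary

variable (hE : IsB F E) (h : IsB F (sel (dU (gu E t) (gw E A)) (dW E) (dS S)))
include h

lemma g_act {v : Nd} (hv : S v = false) : act A v := by
  by_contra e
  exact (d_li h).ne_zero v (by simp [sel, hv, gw, e])

lemma g_par {n x y : ℕ} {l : List ℕ} (hv : S (n, x :: y :: l) = false) : S (n, y :: l) = false := by
  by_contra e
  have := (d_li h).comp ![(n, x :: y :: l), (n, y :: l)] (by
    intro i j
    fin_cases i <;> fin_cases j <;> simp)
  have e1 : sel (gu E t) (gw E A) S ∘ ![(n, x :: y :: l), (n, y :: l)] =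
      ![-E ((n, y :: l), true), E ((n, y :: l), true)] := by
    ext i
    fin_cases i <;> simp [sel, hv, eq_true_of_ne_false e, gu, gw, g_act h hv, qn]
  rw [e1, LinearIndependent.pair_iff] at this
  simpa using this 1 1

include hE

lemma g_dual {L : Nd → Prop} {z : Nd} (hz : L z) :
    ∃ v, (S v = true ∧ ¬ (L v ↔ qn t v ∧ L (par v))) ∨ (S v = false ∧ L (par v)) := by
  classical
  by_contra hn
  push Not at hn
  let l := hE.bs.constr F fun p => if p.2 = true ∧ L p.1 then (1 : F) else 0
  have l0 : ∀ p, l (E p) = if p.2 = true ∧ L p.1 then (1 : F) else 0 := fun p => by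
    rw [← hE.bs_apply, Basis.constr_basis]
  have := h.dual l (fun p => ?_) (E (z, true))
  · simp [l0, hz] at this
  obtain ⟨v, rfl | rfl⟩ := d_cases S p
  · rw [sel_d]
    cases e : S v
    · simp only [sel, e, cond_false, gw]
      split_ifs <;> simp [l0, (hn v).2 e]
    · simp only [sel, e, cond_true, gu]
      split_ifs with q <;> simp [l0, (hn v).1 e, q]
  · simp [sel_d', l0]

lemma g_child {y : ℕ} {l : List ℕ} (hv : S (0, y :: l) = false) :
    ∃ x, S (0, x :: y :: l) = false := by
  obtain ⟨⟨n, _ | ⟨x, m⟩⟩, h1 | h1⟩ := g_dual hE h (L := fun v => v = (0, y :: l)) rfl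
  · simp at h1
  · simp at h1
  · obtain ⟨h2, h3⟩ := h1
    simp only [qn, reduceCtorEq, false_and, iff_false, not_not] at h3
    simp [h3, hv] at h2
  · obtain ⟨h2, h3⟩ := h1
    obtain ⟨rfl, rfl⟩ : n = 0 ∧ m = y :: l := by simpa using h3
    exact ⟨x, h2⟩

lemma g_root (h0 : ∀ x, S (0, [x]) = true) : t = true ∧ ∀ v, S v = true := by
  classical
  have h1 : ∀ n x, S (n, [x]) = true := fun n x => by_contra fun e => by
    obtain rfl : n = 0 := ((g_act h (eq_false_of_ne_true e)).resolve_left (by simp)).1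
    exact e (h0 x)
  have h2 : ∀ n, S (n, []) = true := fun n => by
    induction n using Nat.strong_induction_on with
    | _ n ih =>
      by_contra e
      obtain ⟨⟨m, _ | ⟨x, l⟩⟩, h3 | h3⟩ := g_dual hE h (z := (n, []))
        (L := fun v => v.2 = [] ∧ v.1 ≤ n ∧ ∀ i, v.1 ≤ i → i < n → qn t (i, []))
        ⟨rfl, le_rfl, fun i h1 h2 => absurd h1 h2.not_ge⟩
      · have : m ≠ n := fun e1 => e (e1 ▸ h3.1)
        refine h3.2 ⟨fun h4 => ⟨h4.2.2 m le_rfl (lt_of_le_of_ne h4.2.1 this), rfl,
          lt_of_le_of_ne h4.2.1 this, fun i hi => h4.2.2 i (Nat.le_of_succ_le hi)⟩,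
          fun h4 => ⟨rfl, Nat.le_of_succ_le h4.2.2.1, fun i hi h5 => ?_⟩⟩
        rcases (show m ≤ i from hi).eq_or_lt with rfl | h6
        · exact h4.1
        · exact h4.2.2.2 i h6 h5
      · simp [ih m h3.2.2.1] at h3
      · simp [qn] at h3
      · obtain rfl : l = [] := h3.2.1
        simp [h1] at h3
  constructor
  · by_contra e
    obtain ⟨⟨m, _ | ⟨x, l⟩⟩, h3 | h3⟩ := g_dual hE h (z := (0, [])) (L := fun v => v.2 = []) rfl
    · simp [qn, eq_false_of_ne_true e] at h3
    · simp [h2] at h3
    · simp [qn] at h3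
    · obtain rfl : l = [] := h3.2
      simp [h1] at h3
  · rintro ⟨n, _ | ⟨x, l⟩⟩
    · exact h2 n
    · induction l generalizing x with
      | nil => exact h1 n x
      | cons y l ih =>
        by_contra e
        simpa [ih y] using g_par h (eq_false_of_ne_true e)

lemma g_find {X : ℕ → Bool} (cS : CI X S) : (t = true ∧ ∀ v, S v = true) ∨
    ∃ f, CI X f ∧ ∀ n, A (rev f (n + 1)) := by
  by_cases h0 : ∀ x, S (0, [x]) = true
  · exact Or.inl (g_root hE h h0)
  push Not at h0
  obtain ⟨P, cP, p0, hP⟩ := exists_path (X := X)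
    (r := fun l l' : List ℕ => ∃ x, l' = x :: l ∧ S (0, l') = false)
    (I := fun l => l = [] ∨ S (0, l) = false) (Sig.ex (Sig.of_di (by fun_prop))) (s0 := [])
    (Or.inl rfl) (fun _ _ _ ⟨_, _, h1⟩ => Or.inr h1) (by
      rintro (_ | ⟨y, l⟩) h1
      · obtain ⟨x, hx⟩ := h0
        exact ⟨_, x, rfl, eq_false_of_ne_true hx⟩
      · obtain ⟨x, hx⟩ := g_child hE h (h1.resolve_left (by simp))
        exact ⟨_, x, rfl, hx⟩)
  refine Or.inr ⟨fun n => (P (n + 1)).getD 0 0, by fun_prop, fun n => ?_⟩
  have e : ∀ n, rev (fun n => (P (n + 1)).getD 0 0) n = P n := fun n => by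
    induction n with
    | zero => exact p0.symm
    | succ n ih =>
      obtain ⟨x, h1, -⟩ := hP n
      rw [rev_succ, ih, h1]
      rfl
  obtain ⟨x, h1, h2⟩ := hP n
  rw [e]
  exact ((g_act h h2).resolve_left (by simp [h1])).2

end necessary

end Pool.Agent.P.MP_59a3d4_lc.Sp
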