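import Pool.Agent.P.MP_59a3d4_lc.Comp

/-! Linear algebra of systems of pairs of vectors. -/

set_option autoImplicit false

open Submodule Module Set

namespace Pool.Agent.P.MP_59a3d4_lc.Sp

variable {F V ι κ : Type} [Field F] [AddCommGroup V] [Module F V]

variable (F) in
/-- The family `x` is a basis. -/
def IsB (x : ι → V) : Prop := LinearIndependent F x ∧ span F (range x) = ⊤

/-- The basis given by the family. -/
noncomputable def IsB.bs {x : ι → V} (h : IsB F x) : Basis ι F V := Basis.mk h.1 h.2.ge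

@[simp] lemma IsB.bs_apply {x : ι → V} (h : IsB F x) (i : ι) : h.bs i = x i := by simp [IsB.bs]

lemma IsB.of (e : Basis ι F V) : IsB F e := ⟨e.linearIndependent, e.span_eq⟩

open Classical in
lemma IsB.coord {x : ι → V} (h : IsB F x) (i j : ι) :
    h.bs.coord i (x j) = if j = i then 1 else 0 := by
  rw [← h.bs_apply j, Basis.coord_apply, Basis.repr_self, Finsupp.single_apply]

lemma IsB.mem {x : ι → V} (h : IsB F x) {v : V} {s : Set ι} :
    v ∈ span F (x '' s) ↔ ∀ i, i ∉ s → h.bs.coord i v = 0 := by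
  have : x = h.bs := funext fun i => (h.bs_apply i).symm
  conv_lhs => rw [this, Basis.mem_span_image]
  exact forall_congr' fun i => by simp [not_imp_comm]

lemma IsB.dual {x : ι → V} (h : IsB F x) (l : V →ₗ[F] F) (hl : ∀ i, l (x i) = 0) (v : V) :
    l v = 0 := by
  have : l = 0 := h.bs.ext fun i => by simp [hl]
  simp [this]

lemma IsB.bound {x : ℕ → V} (h : IsB F x) (v : V) : ∃ m, ∀ n, m ≤ n → v ∈ span F (x '' Iio n) := by
  obtain ⟨N, hN⟩ := (h.bs.repr v).support.bddAbove
  refine ⟨N + 1, fun n hn => h.mem.2 fun i hi => by_contra fun e => ?_⟩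
  have := hN (Finsupp.mem_support_iff.2 e)
  exact hi (by simp only [mem_Iio]; omega)

/-- A family that is triangular over a basis is a basis. -/
lemma IsB.tri {x : κ → V} (hx : IsB F x) {g : ι → V} (σ : ι → κ) (hσ : Function.Bijective σ)
    (rk : κ → ℕ) (c : ι → F) (hc : ∀ i, c i ≠ 0)
    (h : ∀ i, g i - c i • x (σ i) ∈ span F (x '' {k | rk k < rk (σ i)})) : IsB F g := by
  classical
  constructor
  · rw [linearIndependent_iff']
    intro s a hs
    by_contra hn
    push Not at hn
    obtain ⟨i, hi, hm⟩ := (s.filter fun i => a i ≠ 0).exists_max_image (fun i => rk (σ i))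
      (hn.imp fun i hi => Finset.mem_filter.2 hi)
    have h1 : ∀ j, rk (σ j) ≤ rk (σ i) →
        hx.bs.coord (σ i) (g j) = if j = i then c j else 0 := fun j hj => by
      have := hx.mem.1 (h j) (σ i) (not_lt.2 hj)
      rw [map_sub, map_smul, hx.coord, sub_eq_zero] at this
      simp [this, hσ.1.eq_iff]
    have h2 := congrArg (hx.bs.coord (σ i)) hs
    rw [map_sum, Finset.sum_eq_single i, map_smul, h1 i le_rfl] at h2
    · simp [hc i, (Finset.mem_filter.1 hi).2] at h2
    · intro j hj e
      by_cases a0 : a j = 0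
      · simp [a0]
      · rw [map_smul, h1 j (hm j (Finset.mem_filter.2 ⟨hj, a0⟩)), if_neg e, smul_zero]
    · exact fun e => (e (Finset.mem_filter.1 hi).1).elim
  · have : ∀ n k, rk k = n → x k ∈ span F (range g) := fun n => by
      induction n using Nat.strong_induction_on with
      | _ n ih =>
        intro k hk
        obtain ⟨i, rfl⟩ := hσ.2 k
        have h1 : span F (x '' {k | rk k < rk (σ i)}) ≤ span F (range g) :=
          span_le.2 (by rintro _ ⟨k, h2, rfl⟩; exact ih _ (hk ▸ h2) k rfl)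
        have h2 := sub_mem (subset_span (mem_range_self i)) (h1 (h i))
        rwa [sub_sub_cancel, smul_mem_iff _ (hc i)] at h2
    rw [eq_top_iff, ← hx.2, span_le]
    rintro _ ⟨k, rfl⟩
    exact this _ k rfl

/-- A local change of a basis. -/
lemma IsB.loc {x y : ℕ → V} (hx : IsB F x) {m : ℕ} (h1 : ∀ i, m ≤ i → y i = x i)
    (h2 : ∀ i < m, y i ∈ span F (x '' Iio m)) (h3 : LinearIndepOn F y (Iio m)) : IsB F y := by
  have e1 : y '' Ici m = x '' Ici m := image_congr h1
  have e2 : span F (y '' Iio m) ≤ span F (x '' Iio m) :=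
    span_le.2 (by rintro _ ⟨i, hi, rfl⟩; exact h2 i hi)
  have e3 : Iio m ∪ Ici m = univ := Iio_union_Ici
  constructor
  · rw [← linearIndepOn_univ_iff, ← e3]
    refine h3.union ((hx.1.linearIndepOn _).congr fun i hi => (h1 i hi).symm) ?_
    rw [e1]
    exact (hx.1.disjoint_span_image (Iio_disjoint_Ici le_rfl)).mono_left e2
  · have f : ∀ z : ℕ → V, LinearIndepOn F z (Iio m) →
        finrank F (span F (z '' Iio m)) = Fintype.card (Iio m) := fun z hz => by
      rw [image_eq_range]
      exact finrank_span_eq_card hz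
    have := FiniteDimensional.span_of_finite F ((finite_Iio m).image x)
    rw [← image_univ, ← e3, image_union, span_union, e1, eq_of_le_of_finrank_eq e2
      (by rw [f y h3, f x (hx.1.linearIndepOn _)]), ← span_union, ← image_union, e3, image_univ]
    exact hx.2

lemma IsB.exch {x y : ℕ → V} (hx : IsB F x) {n : ℕ} (h1 : ∀ i, n ≤ i → y i = x i)
    (h3 : LinearIndependent F y) : IsB F y := by
  choose b hb using fun i => hx.bound (y i)
  refine hx.loc (m := n + ∑ i ∈ Finset.range n, b i) (fun i hi => h1 i (by omega))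
    (fun i hi => ?_) (h3.linearIndepOn _)
  by_cases h : i < n
  · exact hb i _ ((Finset.single_le_sum (fun _ _ => Nat.zero_le _) (Finset.mem_range.2 h)).trans
      (by omega))
  · rw [h1 i (by omega)]
    exact subset_span ⟨i, hi, rfl⟩

/-- The selection of one vector from each pair. -/
def sel (u w : ι → V) (S : ι → Bool) (k : ι) : V := bif S k then u k else w k

/-- Good splittings correspond to selections that are bases. -/
lemma good_iff {V₁ V₂ : Submodule F V} (hc : IsCompl V₁ V₂) {u w b : ι → V} (hu : ∀ k, u k ∈ V₁)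
    (hw : ∀ k, w k ∈ V₂) (e : ∀ k, b k = u k - w k) (hb : IsB F b) (S : ι → Bool) :
    IsGoodSplitting V₁ V₂ (range b) (b '' {k | S k = false}) (b '' {k | S k = true}) ↔
      IsB F (sel u w S) := by
  set p := V₁.projection V₂ hc
  have p1 : ∀ v, p v ∈ V₁ := projection_apply_mem hc
  have p2 : ∀ v, p v = v ↔ v ∈ V₁ := projection_eq_self_iff hc
  have p3 : ∀ v, p v = 0 ↔ v ∈ V₂ := fun v => projection_apply_eq_zero_iff hc
  have p4 : ∀ v, p (p v) = p v := fun v => (p2 _).2 (p1 v)
  have p5 : ∀ k, p (b k) = u k := fun k => by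
    rw [e, map_sub, (p2 _).2 (hu k), (p3 _).2 (hw k), sub_zero]
  let T := hb.bs.constr F (sel u w S)
  have t0 : ∀ k, T (b k) = sel u w S k := fun k => by
    rw [← hb.bs_apply, Basis.constr_basis]
  have t1 : ∀ v ∈ span F (b '' {k | S k = false}), T v = p v - v := fun v hv =>
    LinearMap.eqOn_span (f := T) (g := p - LinearMap.id) (by
      rintro _ ⟨k, hk, rfl⟩
      simp only [t0, sel, show S k = false from hk, LinearMap.sub_apply, p5, LinearMap.id_apply]
      simp [e]) hv
  have t2 : ∀ v ∈ span F (b '' {k | S k = true}), T v = p v := fun v hv =>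
    LinearMap.eqOn_span (f := T) (g := p) (by
      rintro _ ⟨k, hk, rfl⟩
      simp [t0, sel, show S k = true from hk, p5]) hv
  have un : b '' {k | S k = false} ∪ b '' {k | S k = true} = range b := by
    rw [← image_union, ← image_univ]
    congr
    ext k
    simp
  have dec : ∀ v, ∃ q ∈ span F (b '' {k | S k = false}), ∃ r ∈ span F (b '' {k | S k = true}),
      q + r = v := fun v => mem_sup.1 (by rw [← span_union, un, hb.2]; trivial)
  have hT : IsB F (sel u w S) ↔ Function.Injective T ∧ Function.Surjective T := by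
    have e1 : sel u w S = T ∘ b := funext fun k => (t0 k).symm
    rw [e1, IsB, range_comp, ← map_span, hb.2, Submodule.map_top, LinearMap.range_eq_top]
    refine and_congr_left' ⟨fun h => ?_, fun h => hb.1.map' T (LinearMap.ker_eq_bot.2 h)⟩
    exact hb.bs.injective_constr_of_linearIndependent (e1 ▸ h)
  rw [hT, injective_iff_map_eq_zero]
  constructor
  · rintro ⟨-, -, h1, h2⟩
    refine ⟨fun v hv => ?_, fun v => ?_⟩
    · obtain ⟨q, hq, r, hr, rfl⟩ := dec v
      rw [map_add, t1 q hq, t2 r hr] at hv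
      have q0 : q = 0 := disjoint_def.1 h1.disjoint q (by
        rw [show q = p q + p r by linear_combination (norm := module) -hv]
        exact add_mem (p1 _) (p1 _)) hq
      rw [q0, map_zero, sub_zero, zero_add] at hv
      rw [q0, disjoint_def.1 h2.disjoint r ((p3 r).1 hv) hr, add_zero]
    · obtain ⟨a, ha, q, hq, e1⟩ := mem_sup.1 (h1.sup_eq_top ▸ mem_top (x := -v))
      obtain ⟨c, hc, r, hr, e2⟩ := mem_sup.1 (h2.sup_eq_top ▸ mem_top (x := v))
      refine ⟨q + r, ?_⟩
      have e3 := congrArg p e1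
      have e4 := congrArg p e2
      rw [map_add, (p2 a).2 ha, map_neg] at e3
      rw [map_add, (p3 c).2 hc] at e4
      rw [map_add, t1 q hq, t2 r hr]
      linear_combination (norm := module) e3 + e4 - e1
  · rintro ⟨h1, h2⟩
    refine ⟨un, (disjoint_image_iff hb.1.injective).2 (Set.disjoint_left.2 fun k => by simp),
      ⟨disjoint_def.2 fun q h3 hq => h1 q (by rw [t1 q hq, (p2 q).2 h3, sub_self]), ?_⟩,
      ⟨disjoint_def.2 fun r h3 hr => h1 r (by rw [t2 r hr, (p3 r).2 h3]), ?_⟩⟩
    · refine codisjoint_iff.2 (eq_top_iff.2 fun v _ => ?_)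
      obtain ⟨z, hz⟩ := h2 (-v)
      obtain ⟨q, hq, r, hr, rfl⟩ := dec z
      rw [map_add, t1 q hq, t2 r hr] at hz
      exact mem_sup.2 ⟨-(p q + p r), neg_mem (add_mem (p1 _) (p1 _)), q, hq,
        by linear_combination (norm := module) -hz⟩
    · refine codisjoint_iff.2 (eq_top_iff.2 fun v _ => ?_)
      obtain ⟨z, hz⟩ := h2 v
      obtain ⟨q, hq, r, hr, rfl⟩ := dec z
      rw [map_add, t1 q hq, t2 r hr] at hz
      have e3 := congrArg p hz
      rw [map_add, map_sub, p4, p4, sub_self, zero_add] at e3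
      exact mem_sup.2 ⟨v - r, (p3 _).1 (by rw [map_sub, e3, sub_self]), r, hr, sub_add_cancel _ _⟩

lemma split_form {V₁ V₂ : Submodule F V} {b : ι → V} {B₁ B₂ : Set V}
    (h : IsGoodSplitting V₁ V₂ (range b) B₁ B₂) :
    ∃ S : ι → Bool, B₁ = b '' {k | S k = false} ∧ B₂ = b '' {k | S k = true} := by
  classical
  refine ⟨fun k => decide (b k ∈ B₂), Set.ext fun v => ⟨fun hv => ?_, ?_⟩,
    Set.ext fun v => ⟨fun hv => ?_, ?_⟩⟩
  · obtain ⟨k, rfl⟩ : v ∈ range b := h.1 ▸ Or.inl hv
    exact ⟨k, by simpa using Set.disjoint_left.1 h.2.1 hv, rfl⟩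
  · rintro ⟨k, hk, rfl⟩
    exact (h.1.ge (mem_range_self k)).resolve_right (by simpa using hk)
  · obtain ⟨k, rfl⟩ : v ∈ range b := h.1 ▸ Or.inr hv
    exact ⟨k, by simpa using hv, rfl⟩
  · rintro ⟨k, hk, rfl⟩
    simpa using hk

section source

variable {x y y' : ℕ → V} {a : ℕ}

open Classical in
/-- If no finite exchange above `a` is independent, every finite set above `a` has a source. -/
lemma source (hy : IsB F y) (hno : ∀ Q : Finset ℕ, Q.Nonempty → (∀ i ∈ Q, a ≤ i) →
    ¬ LinearIndependent F fun i => if i ∈ Q then y' i else y i) (Q : Finset ℕ) :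
    Q.Nonempty → (∀ i ∈ Q, a ≤ i) → ∃ i ∈ Q, ∀ j ∈ Q, hy.bs.coord i (y' j) = 0 := by
  induction Q using Finset.strongInduction with
  | H Q ih =>
    intro h1 h2
    by_contra h3
    push Not at h3
    have h4 := hno Q h1 h2
    rw [linearIndependent_iff'] at h4
    push Not at h4
    obtain ⟨s, c, h4, l, hl, cl⟩ := h4
    obtain ⟨j, hj, cj, jQ⟩ : ∃ j ∈ s, c j ≠ 0 ∧ j ∈ Q := by
      by_contra h5
      push Not at h5
      refine cl (linearIndependent_iff'.1 hy.1 s c ?_ l hl)
      rw [← h4]
      refine Finset.sum_congr rfl fun i hi => ?_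
      by_cases e : c i = 0
      · simp [e]
      · rw [if_neg (h5 i hi e)]
    have key : ∀ i ∈ Q, ∃ l ∈ Q.erase j, hy.bs.coord i (y' l) ≠ 0 := fun i hi => by
      by_contra h5
      push Not at h5
      have h6 := congrArg (hy.bs.coord i) h4
      rw [map_sum, Finset.sum_eq_single j, if_pos jQ, map_smul, map_zero, smul_eq_zero,
        or_iff_right cj] at h6
      · obtain ⟨l, h7, h8⟩ := h3 i hi
        by_cases e : l = j
        · exact h8 (e ▸ h6)
        · exact h8 (h5 l (Finset.mem_erase.2 ⟨e, h7⟩))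
      · intro l _ e
        by_cases lQ : l ∈ Q
        · rw [if_pos lQ, map_smul, h5 l (Finset.mem_erase.2 ⟨e, lQ⟩), smul_zero]
        · rw [if_neg lQ, map_smul, hy.coord, if_neg (fun e : l = i => lQ (e ▸ hi)), smul_zero]
      · exact fun e => (e hj).elim
    obtain ⟨i, hi, h5⟩ := ih _ (Finset.erase_ssubset jQ) ((key j jQ).imp fun _ h => h.1)
      fun i hi => h2 i (Finset.mem_of_mem_erase hi)
    obtain ⟨l, h6, h7⟩ := key i (Finset.mem_of_mem_erase hi)
    exact h7 (h5 l h6)

open Classical in
lemma cofinite (hx : IsB F x) (hy : IsB F y) {s : ℕ → F} (s0 : ∀ i, s i ≠ 0)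
    (hs : ∀ i, x i = s i • (y i - y' i)) (hno : ∀ Q : Finset ℕ, Q.Nonempty → (∀ i ∈ Q, a ≤ i) →
      ¬ LinearIndependent F fun i => if i ∈ Q then y' i else y i) :
    ∃ n, ∀ k, n ≤ k → hx.bs.coord k (y' k) = 0 := by
  let z : ℕ → V := fun i => if i < a then y i else x i
  have key : ∀ c : ℕ →₀ F, (∃ i, a ≤ i ∧ c i ≠ 0 ∧
      hy.bs.coord i (Finsupp.linearCombination F z c) = c i * s i) ∨
      (∀ i, a ≤ i → c i = 0) ∧
        Finsupp.linearCombination F z c = Finsupp.linearCombination F y c := fun c => by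
    by_cases h : (c.support.filter fun i => a ≤ i).Nonempty
    · obtain ⟨i, hi, h1⟩ := source hy hno _ h fun i hi => (Finset.mem_filter.1 hi).2
      obtain ⟨i1, i2⟩ := Finset.mem_filter.1 hi
      refine Or.inl ⟨i, i2, Finsupp.mem_support_iff.1 i1, ?_⟩
      rw [Finsupp.linearCombination_apply, Finsupp.sum, map_sum, Finset.sum_eq_single i]
      · simp only [z, if_neg (not_lt.2 i2), hs i, map_smul, map_sub, hy.coord, h1 i hi]
        simp
      · intro j hj e
        by_cases h2 : j < a
        · simp only [z, if_pos h2, map_smul, hy.coord, if_neg e, smul_zero]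
        · simp only [z, if_neg h2, hs j, map_smul, map_sub, hy.coord, if_neg e,
            h1 j (Finset.mem_filter.2 ⟨hj, not_lt.1 h2⟩)]
          simp
      · exact fun e => (e i1).elim
    · have h1 : ∀ i, a ≤ i → c i = 0 := fun i hi => by_contra fun e =>
        h ⟨i, Finset.mem_filter.2 ⟨Finsupp.mem_support_iff.2 e, hi⟩⟩
      refine Or.inr ⟨h1, Finsupp.sum_congr fun i hi => ?_⟩
      simp only [z, if_pos (not_le.1 fun e => Finsupp.mem_support_iff.1 hi (h1 i e))]
  have hz : IsB F z := hx.exch (n := a) (fun i hi => if_neg (not_lt.2 hi))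
    (linearIndependent_iff.2 fun c hc => by
      rcases key c with ⟨i, -, h1, h2⟩ | ⟨-, h2⟩
      · rw [hc, map_zero] at h2
        exact (mul_ne_zero h1 (s0 i) h2.symm).elim
      · exact linearIndependent_iff.1 hy.1 c (h2 ▸ hc))
  choose b hb using fun i => hx.bound (y i)
  refine ⟨a + ∑ i ∈ Finset.range a, b i, fun k hk => ?_⟩
  obtain ⟨c, hc⟩ : ∃ c, Finsupp.linearCombination F z c = y k := by
    rw [← LinearMap.mem_range, Finsupp.range_linearCombination, hz.2]
    trivial
  have h1 : c k * s k = 1 := by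
    rcases key c with ⟨i, -, h1, h2⟩ | ⟨h1, h2⟩
    · rw [hc, hy.coord] at h2
      split_ifs at h2 with e
      · rw [e, ← h2]
      · exact (mul_ne_zero h1 (s0 i) h2.symm).elim
    · have := hy.1 (a₁ := c) (a₂ := Finsupp.single k 1) (by rw [← h2, hc]; simp)
      have h3 := h1 k (by omega)
      simp [this] at h3
  have h2 : hx.bs.coord k (y k) = c k := by
    rw [← hc, Finsupp.linearCombination_apply, Finsupp.sum, map_sum, Finset.sum_eq_single k]
    · simp [z, show ¬ k < a by omega, hx.coord]
    · intro j _ e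
      by_cases h2 : j < a
      · have := Finset.single_le_sum (f := b) (fun _ _ => Nat.zero_le _) (Finset.mem_range.2 h2)
        simp only [z, if_pos h2, map_smul, hx.mem.1 (hb j k (by omega)) k (lt_irrefl k), smul_zero]
      · simp only [z, if_neg h2, map_smul, hx.coord, if_neg e, smul_zero]
    · exact fun e => by simp [Finsupp.notMem_support_iff.1 e]
  have h3 := hx.coord k k
  rw [if_pos rfl, hs k, map_smul, map_sub, h2, smul_eq_mul] at h3
  exact mul_left_cancel₀ (s0 k) (by linear_combination h1 - h3)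

end source

end Pool.Agent.P.MP_59a3d4_lc.Sp
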