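import Pool.Agent.P.MP_59a3d4_lc.Sp.Up
import Pool.Agent.P.MP_59a3d4_lc.Sp.Gad

/-! The degrees of good splittings, and the index sets. -/

set_option autoImplicit false
set_option linter.unusedSectionVars false

open Submodule Module Set
open Pool.Agent.P.MP_9014a2_lc Pool.Agent.Lib.Helper43

namespace Pool.Agent.P.MP_59a3d4_lc.Sp

variable {F V ι : Type} [Field F] [AddCommGroup V] [Module F V] [Primcodable F] [Primcodable V]
  [Primcodable ι] {Z : ℕ → Bool}

lemma mem_up {T : Set (List ℕ)} : Z ∈ Up T ↔ ∃ f, (∀ n, ini f n ∈ T) ∧ CI Z f :=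
  exists_congr fun _ => and_congr_right fun _ => ci_iff.symm

lemma mem_spec {V₁ V₂ : Submodule F V} (hc : IsCompl V₁ V₂) {u w : ι → V} (hu : ∀ k, u k ∈ V₁)
    (hw : ∀ k, w k ∈ V₂) (hb : IsB F fun k => u k - w k) (cb : Computable fun k => u k - w k)
    (hr : ComputablePred fun v => v ∈ range fun k => u k - w k) :
    Z ∈ Spec V₁ V₂ (range fun k => u k - w k) ↔
      ∃ S, IsB F (sel u w S) ∧ CI Z S ∧ ∀ X, CI X S → Red Z X := by
  have e := fun X => red_code (X := X) hb.1.injective cb hr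
  constructor
  · rintro ⟨B₁, B₂, h1, h2, h3⟩
    obtain ⟨S, rfl, rfl⟩ := split_form h1
    exact ⟨S, (good_iff hc hu hw (fun _ => rfl) hb S).1 h1, (e Z S).1 (red_iff.2 h3),
      fun X hX => (red_iff.2 h2).trans ((e X S).2 hX)⟩
  · rintro ⟨S, h1, h2, h3⟩
    exact ⟨_, _, (good_iff hc hu hw (fun _ => rfl) hb S).2 h1,
      red_iff.1 (h3 _ ((e _ S).1 (Red.refl _))), red_iff.1 ((e Z S).2 h2)⟩

lemma spec_ne {V₁ V₂ : Submodule F V} {B : Set V} :
    (∃ B₁ B₂, IsGoodSplitting V₁ V₂ B B₁ B₂) ↔ (Spec V₁ V₂ B).Nonempty :=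
  ⟨fun ⟨B₁, B₂, h⟩ => ⟨_, B₁, B₂, h, TuringEquivalent.refl _⟩, fun ⟨_, B₁, B₂, h, _⟩ => ⟨B₁, B₂, h⟩⟩

lemma up_ne {T : Set (List ℕ)} : (Up T).Nonempty ↔ ∃ f, ∀ n, ini f n ∈ T := by
  refine ⟨fun ⟨_, f, h, _⟩ => ⟨f, h⟩, fun ⟨f, h⟩ =>
    ⟨fun n => decide (f n.unpair.1 = n.unpair.2), mem_up.2 ⟨f, h, ?_⟩⟩⟩
  set Z : ℕ → Bool := fun n => decide (f n.unpair.1 = n.unpair.2) with hZ
  have : CI Z Z := CI.oracle
  exact CI.of_graph (Sig.of_di (DI.of_bool (f := fun x : ℕ × ℕ => Z (Nat.pair x.1 x.2))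
    (by fun_prop) fun x => by simp [hZ]))

lemma IsFamily.inst {V₁ V₂ : ℕ → Submodule F V} {B : ℕ → Set V} (h : IsFamily V₁ V₂ B) (e : ℕ) :
    IsInstance (V₁ e) (V₂ e) (B e) :=
  have c : Computable fun v : V => (e, v) := (Computable.const e).pair Computable.id
  ⟨h.compl e, h.basis e, (cp_comp h.dec₁ c :), (cp_comp h.dec₂ c :), (cp_comp h.decB c :)⟩

lemma IsInstance.fam {V₁ V₂ : Submodule F V} {B : Set V} (h : IsInstance V₁ V₂ B) :
    IsFamily (fun _ => V₁) (fun _ => V₂) fun _ => B :=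
  ⟨fun _ => h.compl, fun _ => h.basis, cp_comp h.dec₁ Computable.snd,
    cp_comp h.dec₂ Computable.snd, cp_comp h.decB Computable.snd⟩

variable (h : IsVInfinity F V)
include h

/-- The instances attached to a sequence of trees. -/
theorem realise {R : ℕ × List ℕ → Prop} (hR : ComputablePred R) (t : Bool) :
    ∃ (V₁ V₂ : ℕ → Submodule F V) (B : ℕ → Set V), IsFamily V₁ V₂ B ∧ ∀ e,
      Spec (V₁ e) (V₂ e) (B e) = Up {l | R (e, l)} ∪ {Z | t = true ∧ Computable Z} := by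
  classical
  obtain ⟨E0, hE0⟩ := exists_computable_basis h
  let en : Nd × Bool → ℕ := fun p => 2 * Encodable.encode p.1 + bif p.2 then 1 else 0
  have hen : Function.Bijective en := by
    constructor
    · rintro ⟨v, _ | _⟩ ⟨z, _ | _⟩ e <;> simp only [en, cond_true, cond_false] at e
      · rw [Encodable.encode_injective (show Encodable.encode v = Encodable.encode z by omega)]
      · omega
      · omega
      · rw [Encodable.encode_injective (show Encodable.encode v = Encodable.encode z by omega)]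
    · intro n
      refine ⟨(Denumerable.ofNat Nd (n / 2), decide (n % 2 = 1)), ?_⟩
      have : Encodable.encode (Denumerable.ofNat Nd (n / 2)) = n / 2 := Denumerable.encode_ofNat _
      simp only [en, this]
      by_cases e : n % 2 = 1 <;> simp only [e, decide_true, decide_false, cond_true, cond_false] <;>
        omega
  let E : Nd × Bool → V := fun p => E0 (en p)
  have hE : IsB F E := (IsB.of E0).tri en hen (fun _ => 0) 1 (by simp) (by simp [E])
  have cE : Computable E := hE0.comp (by fun_prop)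
  have c1 := comp_sub h
  have c2 := di_of (X := O0) hR
  have c3 : Computable par := by
    refine ci0 ?_
    unfold par
    fun_prop
  have c4 : Computable fun v : V => -v :=
    (c1.comp ((Computable.const 0).pair Computable.id)).of_eq fun v => zero_sub v
  let A : ℕ → List ℕ → Prop := fun e l => R (e, l.reverse) ∧ R (e, [])
  let b : ℕ → Nd × Bool → V := fun e p => dU (gu E t) (gw E (A e)) p - dW E p
  have cb : CI O0 fun q : ℕ × Nd × Bool => b q.1 q.2 := by
    simp only [b, dU, dW, gu, gw, qn, act, A]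
    fun_prop
  have hb : ∀ e, IsB F (b e) := fun e => g_basis hE
  have hc : IsCompl (span F (E '' {p | p.2 = true})) (span F (E '' {p | p.2 = false})) := by
    refine ⟨hE.1.disjoint_span_image (Set.disjoint_left.2 fun p => by simp), codisjoint_iff.2 ?_⟩
    rw [← span_union, ← image_union, ← hE.2, ← image_univ]
    congr
    ext p
    simp
  have hd : ∀ β, ComputablePred fun x : ℕ × V => x.2 ∈ span F (E '' {p | p.2 = β}) := fun β =>
    di0 (di_span h (x := fun _ => E) (fun _ => hE) (by fun_prop) (by fun_prop) (by fun_prop))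
  have hF : IsFamily (fun _ => span F (E '' {p | p.2 = true}))
      (fun _ => span F (E '' {p | p.2 = false})) fun e => range (b e) :=
    ⟨fun _ => hc, fun e => ⟨(hb e).1.linearIndepOn_id, (hb e).2⟩, hd _, hd _, di0 (di_range h hb cb)⟩
  refine ⟨_, _, _, hF, fun e => Set.ext fun Z => ?_⟩
  refine (mem_spec hc (w := dW E) g_mem (fun p => neg_mem (subset_span ⟨_, rfl, rfl⟩)) (hb e)
    (ci0 (cb.comp (g := fun p => (e, p)) (by fun_prop))) (hF.inst e).decB).trans ?_
  rw [mem_union, mem_up]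
  constructor
  · rintro ⟨T, h1, h2, h3⟩
    have h4 := d_shape hE g_mem h1
    rw [h4] at h1
    rcases g_find hE h1 (X := Z) (by fun_prop) with ⟨h5, h6⟩ | ⟨f, h5, h6⟩
    · refine Or.inr ⟨h5, ci0 (h3 _ ?_)⟩
      rw [h4, funext h6]
      unfold dS
      fun_prop
    · refine Or.inl ⟨f, ?_, h5⟩
      rintro (_ | n)
      · exact (h6 0).2
      · simpa [rev] using (h6 n).1
  · rintro (⟨f, h1, h2⟩ | ⟨rfl, h2⟩)
    · have cZ : CI Z Z := CI.oracle
      refine ⟨_, g_path hE (f := f) (fun n => ⟨by simpa [rev] using h1 (n + 1), h1 0⟩) Z, ?_,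
        fun X hX => (hX.comp (g := fun n => ((2 * n + 1, []), true)) (by fun_prop)).of_eq fun n => ?_⟩
      · unfold dS gS rev ini
        fun_prop
      · have e1 : (2 * n + 1) / 2 = n := by omega
        simp [dS, gS, e1]
    · refine ⟨_, g_triv hE, ?_, fun X _ => CI.of_comp h2⟩
      unfold dS
      fun_prop

omit h in
lemma ls_seg {u w : ℕ → V} (S : ℕ → Bool) (m : ℕ) :
    ls u w (fun i => (seg S m).getD i false) m = ls u w S m := ls_congr fun _ hi => seg_getD S hi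

theorem index_sigma {V₁ V₂ : ℕ → Submodule F V} {B : ℕ → Set V} (hF : IsFamily V₁ V₂ B) :
    IsSigma11 {e | ∃ B₁ B₂, IsGoodSplitting (V₁ e) (V₂ e) (B e) B₁ B₂} := by
  obtain ⟨u, w, cu, cw, H⟩ := pairs h hF
  have h1 := di_li (X := O0) h
  have h2 := comp_vec (V := V)
  obtain ⟨R, hR, e⟩ := tree (Q := fun e s n => n ≤ s.length ∧
    LI F (ls (u e) (w e) (fun i => s.getD i false) s.length) ∧
      ¬ LI F (vec n :: ls (u e) (w e) (fun i => s.getD i false) s.length)) (by fun_prop)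
  simp only [seg_length, ls_seg, ← good_nf] at e
  refine ⟨R, hR, fun i => ?_⟩
  obtain ⟨a1, a2, a3, a4⟩ := H i
  constructor
  · rintro ⟨B₁, B₂, h3⟩
    rw [← a4] at h3
    obtain ⟨S, rfl, rfl⟩ := split_form h3
    obtain ⟨f, hf, -⟩ := (e i).2 S ((good_iff (hF.compl i) a1 a2 (fun _ => rfl) a3 S).1 h3)
    exact ⟨f, hf⟩
  · rintro ⟨f, hf⟩
    obtain ⟨S, hS, -⟩ := (e i).1 f hf
    exact ⟨_, _, a4 ▸ (good_iff (hF.compl i) a1 a2 (fun _ => rfl) a3 S).2 hS⟩

theorem spec_tree {V₁ V₂ : Submodule F V} {B : Set V} (hI : IsInstance V₁ V₂ B) :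
    ∃ T : Set (List ℕ), ComputablePred (fun l => l ∈ T) ∧
      (Spec V₁ V₂ B = Up T ∨ Spec V₁ V₂ B = Up T ∪ {Z | Computable Z}) := by
  classical
  obtain ⟨u', w', cu', cw', H⟩ := pairs h hI.fam
  obtain ⟨a1, a2, a3, a4⟩ := H 0
  have cu : Computable (u' 0) := cu'.comp (g := fun k => (0, k)) (by fun_prop)
  have cw : Computable (w' 0) := cw'.comp (g := fun k => (0, k)) (by fun_prop)
  generalize u' 0 = u at *
  generalize w' 0 = w at *
  subst a4
  have h1 := di_li (X := O0) h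
  have h2 := comp_vec (V := V)
  have h3 := comp_sub h
  have cD : Computable (can F u w) := ci0 (CI.decide (di_span h (x := fun _ i => u i - w i)
    (fun _ => a3) (by fun_prop) (p := fun k i => i ≠ k) (by fun_prop) (CI.of_comp cw)))
  obtain ⟨R, hR, e⟩ := tree (Q := fun _ s n => (n ≤ s.length ∧
    LI F (ls u w (fun i => s.getD i false) s.length) ∧
      ¬ LI F (vec n :: ls u w (fun i => s.getD i false) s.length)) ∧
        ∃ i < s.length, n ≤ i ∧ s.getD i false ≠ can F u w i)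
    (DI.and (by fun_prop) (DI.exLt (by fun_prop) (by fun_prop)))
  simp only [seg_length, ls_seg] at e
  have e1 : ∀ S : ℕ → Bool, (∀ n, ∃ m, (n ≤ m ∧ LI F (ls u w S m) ∧ ¬ LI F (vec n :: ls u w S m)) ∧
      ∃ i < m, n ≤ i ∧ (seg S m).getD i false ≠ can F u w i) ↔
      IsB F (sel u w S) ∧ ∀ n, ∃ i, n ≤ i ∧ S i ≠ can F u w i := fun S => by
    refine ⟨fun h4 => ⟨good_nf.2 fun n => (h4 n).imp fun _ h => h.1, fun n => ?_⟩, fun h4 n => ?_⟩
    · obtain ⟨m, -, i, h5, h6⟩ := h4 n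
      exact ⟨i, by rwa [seg_getD S h5] at h6⟩
    · obtain ⟨i, h5, h6⟩ := h4.2 n
      obtain ⟨m, h7, h8⟩ := exists_loc h4.1 (i + 1)
      exact ⟨m, ⟨by omega, h4.1.ls m, (h8 n (by omega)).2.2⟩, i, h7, h5, by rwa [seg_getD S h7]⟩
  simp only [e1] at e
  have hs := fun Z => mem_spec (Z := Z) hI.compl a1 a2 a3 (by fun_prop) hI.decB
  have k1 : Up {l | R (0, l)} ⊆ Spec V₁ V₂ (range fun k => u k - w k) := fun Z hZ => by
    obtain ⟨f, h4, h5⟩ := mem_up.1 hZ
    obtain ⟨S, ⟨h6, h7⟩, h8⟩ := (e 0).1 f h4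
    obtain ⟨T, h9, h10, h11⟩ := cone h cu cw h6 (fun a k hk => dich a3 hk (fun n => by
      obtain ⟨i, i1, i2⟩ := h7 (n + k)
      refine ⟨i, by omega, ?_⟩
      rwa [fl, Bool.eq_false_iff.2 fun e => absurd (lt_of_bit e) (by omega), Bool.xor_false]) a)
      (h8 Z h5)
    exact (hs Z).2 ⟨T, h9, h10, fun X hX => h11.trans hX⟩
  have k2 : ∀ S : ℕ → Bool, (¬ ∀ n, ∃ i, n ≤ i ∧ S i ≠ can F u w i) → Computable S := fun S hS => by
    push Not at hS
    obtain ⟨n, hn⟩ := hS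
    refine ci0 (CI.of_eq (f := fun i => if i < n then (seg S n).getD i false else can F u w i)
      (by fun_prop) fun i => ?_)
    split_ifs with hi
    exacts [seg_getD S hi, (hn i (not_lt.1 hi)).symm]
  have k3 : ∀ S, IsB F (sel u w S) → (∀ n, ∃ i, n ≤ i ∧ S i ≠ can F u w i) → ∀ Z, CI Z S →
      Z ∈ Up {l | R (0, l)} := fun S h4 h5 Z h6 =>
    let ⟨f, h7, h8⟩ := (e 0).2 S ⟨h4, h5⟩; mem_up.2 ⟨f, h7, h8.mono h6⟩
  refine ⟨{l | R (0, l)}, (cp_comp hR ((Computable.const 0).pair Computable.id) :), ?_⟩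
  by_cases k : ∃ S, IsB F (sel u w S) ∧ ¬ ∀ n, ∃ i, n ≤ i ∧ S i ≠ can F u w i
  · obtain ⟨S0, s1, s2⟩ := k
    refine Or.inr (Subset.antisymm (fun Z hZ => ?_) (union_subset k1 fun Z hZ =>
      (hs Z).2 ⟨S0, s1, CI.of_comp (k2 S0 s2), fun X _ => CI.of_comp hZ⟩))
    obtain ⟨S, h4, h5, h6⟩ := (hs Z).1 hZ
    by_cases h7 : ∀ n, ∃ i, n ≤ i ∧ S i ≠ can F u w i
    · exact Or.inl (k3 S h4 h7 Z h5)
    · exact Or.inr (ci0 (h6 _ (CI.of_comp (k2 S h7))))
  · refine Or.inl (Subset.antisymm (fun Z hZ => ?_) k1)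
    obtain ⟨S, h4, h5, -⟩ := (hs Z).1 hZ
    exact k3 S h4 (by_contra fun h7 => k ⟨S, h4, h7⟩) Z h5

end Pool.Agent.P.MP_59a3d4_lc.Sp
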