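import Pool.Agent.P.MP_59a3d4_lc.Sp.Eff

/-! Coding a set into a selection that is a basis. -/

set_option autoImplicit false
set_option linter.unusedSectionVars false

open Submodule Module Set
open Pool.Agent.P.MP_9014a2_lc Pool.Agent.Lib.Helper43

namespace Pool.Agent.P.MP_59a3d4_lc.Sp

variable (F : Type) {V α : Type} [Field F] [AddCommGroup V] [Module F V] [Primcodable F]
  [Primcodable V] [Primcodable α] (u w : ℕ → V)

/-- The first `m` selected vectors. -/
def ls (S : ℕ → Bool) (m : ℕ) : List V := (List.range m).map (sel u w S)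

/-- The selection is changed at the binary digits of `j`. -/
def fl (S : ℕ → Bool) (j i : ℕ) : Bool := xor (S i) (j.testBit i)

/-- The first `n` pairs and vectors depend on the first `m` selected vectors. -/
def Loc (S : ℕ → Bool) (n m : ℕ) : Prop := n ≤ m ∧ ∀ k < n, ¬ LI F (u k :: ls u w S m) ∧
  ¬ LI F (w k :: ls u w S m) ∧ ¬ LI F (vec k :: ls u w S m)

/-- `j` codes a nonempty finite set above `a`. -/
def Abv (a j : ℕ) : Prop := 0 < j ∧ ∀ i < a, j.testBit i = false

/-- `j` is the least admissible change above `a`, as certified by the first `m` vectors. -/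
def Step (S : ℕ → Bool) (a j m : ℕ) : Prop := (Abv a j ∧ LI F (ls u w (fl S j) m)) ∧
  (∀ i < j, ¬ (Abv a i ∧ LI F (ls u w (fl S i) m))) ∧ Loc F u w S j m ∧
    ∀ i < m, ¬ Loc F u w S j i

/-- A binary digit of `j`. -/
def pos (j : ℕ) : ℕ := ((List.range j).filter j.testBit).getD 0 0

variable {F u w} {S S' X Z : ℕ → Bool} {a j k m n : ℕ}

lemma lt_of_bit {i : ℕ} (h : j.testBit i = true) : i < j :=
  Nat.lt_two_pow_self.trans_le (Nat.ge_two_pow_of_testBit h)

lemma pos_spec (h : 0 < j) : j.testBit (pos j) = true := by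
  obtain ⟨i, hi⟩ := Nat.exists_testBit_of_ne_zero h.ne'
  have h1 : i ∈ (List.range j).filter j.testBit := by simp [hi, lt_of_bit hi]
  have h2 := List.length_pos_of_mem h1
  rw [pos, List.getD_eq_getElem _ _ h2]
  exact (List.mem_filter.1 (List.getElem_mem h2)).2

lemma Abv.lt (h : Abv a j) : a < j := by
  have h1 := pos_spec h.1
  exact (not_lt.1 fun e => by simp [h.2 _ e] at h1).trans_lt (lt_of_bit h1)

lemma fl_fl (S : ℕ → Bool) (k j : ℕ) : fl (fl S k) j = fl S (k ^^^ j) :=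
  funext fun i => by simp [fl]

lemma fl_zero (S : ℕ → Bool) : fl S 0 = S := funext fun i => by simp [fl]

lemma ls_congr (h : ∀ i < m, S i = S' i) : ls u w S m = ls u w S' m :=
  List.map_congr_left fun i hi => by simp [sel, h i (List.mem_range.1 hi)]

lemma li_ls : LI F (ls u w S m) ↔ LinearIndepOn F (sel u w S) (Iio m) := by
  rw [ls, li_map List.nodup_range]
  simp [Iio]

lemma dep_ls (h : LI F (ls u w S m)) {v : V} :
    ¬ LI F (v :: ls u w S m) ↔ v ∈ span F (sel u w S '' Iio m) := by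
  rw [ls, dep_iff h]
  simp [Iio]

lemma IsB.ls (h : IsB F (sel u w S)) (m : ℕ) : LI F (ls u w S m) := li_ls.2 (h.1.linearIndepOn _)

lemma good_nf : IsB F (sel u w S) ↔
    ∀ n, ∃ m, n ≤ m ∧ LI F (ls u w S m) ∧ ¬ LI F (vec n :: ls u w S m) := by
  refine ⟨fun h n => ?_, fun h => ⟨?_, eq_top_iff.2 fun v _ => ?_⟩⟩
  · obtain ⟨m, hm⟩ := h.bound (vec n)
    exact ⟨n + m, by omega, h.ls _, (dep_ls (h.ls _)).2 (hm _ (by omega))⟩
  · rw [← linearIndepOn_univ_iff]
    refine linearIndepOn_of_finite _ fun t _ ht => ?_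
    obtain ⟨n, hn⟩ := ht.bddAbove
    obtain ⟨m, h1, h2, -⟩ := h (n + 1)
    exact (li_ls.1 h2).mono fun i hi => (hn hi).trans_lt h1
  · obtain ⟨m, -, h2, h3⟩ := h (Encodable.encode v)
    rw [dep_ls h2, vec_encode] at h3
    exact span_mono (image_subset_range _ _) h3

lemma exists_loc (h : IsB F (sel u w S)) (n : ℕ) : ∃ m, Loc F u w S n m := by
  choose b hb using h.bound
  refine ⟨n + ∑ k ∈ Finset.range n, (b (u k) + b (w k) + b (vec k)), by omega, fun k hk => ?_⟩
  have := Finset.single_le_sum (f := fun k => b (u k) + b (w k) + b (vec k))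
    (fun _ _ => Nat.zero_le _) (Finset.mem_range.2 hk)
  simp only [dep_ls (h.ls _)]
  exact ⟨hb _ _ (by omega), hb _ _ (by omega), hb _ _ (by omega)⟩

lemma Loc.iff (h : IsB F (sel u w S)) (hl : Loc F u w S n m) (hj : j ≤ n) :
    LI F (ls u w (fl S j) m) ↔ IsB F (sel u w (fl S j)) := by
  refine ⟨fun h1 => h.loc (fun i hi => ?_) (fun i hi => ?_) (li_ls.1 h1), fun h1 => h1.ls m⟩
  · have : j.testBit i = false := by
      by_contra e
      have := lt_of_bit (eq_true_of_ne_false e)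
      have := hl.1
      omega
    simp [sel, fl, this]
  · cases e : j.testBit i
    · exact subset_span ⟨i, hi, by simp [sel, fl, e]⟩
    · obtain ⟨h2, h3, -⟩ := hl.2 i ((lt_of_bit e).trans_le hj)
      rw [dep_ls (h.ls _)] at h2 h3
      rw [sel]
      cases fl S j i <;> assumption

lemma Step.congr (h : Step F u w S a j m) (e : ∀ i < m, S i = S' i) : Step F u w S' a j m := by
  have e1 : ∀ j, ls u w (fl S j) m = ls u w (fl S' j) m :=
    fun j => ls_congr fun i hi => by simp [fl, e i hi]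
  have e2 : ∀ n ≤ m, (Loc F u w S j n ↔ Loc F u w S' j n) := fun n hn => by
    rw [Loc, Loc, ls_congr fun i hi => e i (hi.trans_le hn)]
  exact ⟨e1 j ▸ h.1, fun i hi => e1 i ▸ h.2.1 i hi, (e2 m le_rfl).1 h.2.2.1,
    fun i hi => (e2 i hi.le).not.1 (h.2.2.2 i hi)⟩

lemma Step.good (hS : IsB F (sel u w S)) (h : Step F u w S a j m) : IsB F (sel u w (fl S j)) :=
  (h.2.2.1.iff hS le_rfl).1 h.1.2

lemma Step.le (h : Step F u w S a j m) (h1 : Abv a k) (h2 : IsB F (sel u w (fl S k))) : j ≤ k :=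
  not_lt.1 fun e => h.2.1 k e ⟨h1, h2.ls m⟩

lemma Step.uniq (hS : IsB F (sel u w S)) (h : Step F u w S a j m) (h' : Step F u w S a k n) :
    j = k ∧ m = n := by
  obtain rfl : j = k := (h.le h'.1.1 (h'.good hS)).antisymm (h'.le h.1.1 (h.good hS))
  exact ⟨rfl, le_antisymm (not_lt.1 fun e => h.2.2.2 n e h'.2.2.1)
    (not_lt.1 fun e => h'.2.2.2 m e h.2.2.1)⟩

lemma exists_step (hS : IsB F (sel u w S)) (h : ∃ j, Abv a j ∧ IsB F (sel u w (fl S j))) :
    ∃ j m, Step F u w S a j m := by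
  classical
  have h1 := exists_loc hS (Nat.find h)
  exact ⟨_, _, ⟨(Nat.find_spec h).1, (Nat.find_spec h).2.ls _⟩, fun i hi e => Nat.find_min h hi
    ⟨e.1, ((Nat.find_spec h1).iff hS hi.le).1 e.2⟩, Nat.find_spec h1, fun i => Nat.find_min h1⟩

/-- Both values of the coded bit can be reached. -/
lemma both (hF : ∀ k, IsB F (sel u w (fl S k)) → ∃ j, Abv a j ∧ IsB F (sel u w (fl (fl S k) j)))
    (hk : IsB F (sel u w (fl S k))) (β : Bool) : ∃ l j m, (∀ i < a, l.testBit i = k.testBit i) ∧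
      IsB F (sel u w (fl S l)) ∧ Step F u w (fl S l) a j m ∧ fl S l (pos j) = β := by
  classical
  have h0 : ∃ j l m, (∀ i < a, l.testBit i = k.testBit i) ∧ IsB F (sel u w (fl S l)) ∧
      Step F u w (fl S l) a j m :=
    let ⟨j, m, h⟩ := exists_step hk (hF k hk); ⟨j, k, m, fun _ _ => rfl, hk, h⟩
  obtain ⟨l, m, h1, h2, h3⟩ := Nat.find_spec h0
  by_cases e : fl S l (pos (Nat.find h0)) = β
  · exact ⟨l, _, m, h1, h2, h3, e⟩
  have h4 := h3.good h2
  rw [fl_fl] at h4
  obtain ⟨j, n, h5⟩ := exists_step h4 (hF _ h4)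
  have h6 : ∀ i < a, (l ^^^ Nat.find h0).testBit i = k.testBit i := fun i hi => by
    rw [Nat.testBit_xor, h3.1.1.2 i hi, Bool.xor_false, h1 i hi]
  obtain rfl : j = Nat.find h0 := (h5.le h3.1.1 (by
    rwa [fl_fl, Nat.xor_assoc, Nat.xor_self, Nat.xor_zero])).antisymm
      (Nat.find_min' h0 ⟨_, n, h6, h4, h5⟩)
  refine ⟨_, _, n, h6, h4, h5, ?_⟩
  rw [← fl_fl, fl, pos_spec h3.1.1.1, Bool.xor_true]
  exact Bool.not_eq_iff.2 e

section eff

variable {g : α → ℕ → Bool} {b c d : α → ℕ}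

@[fun_prop] lemma ci_fl (hg : CI X fun p : α × ℕ => g p.1 p.2) (hb : CI X b) (hc : CI X c) :
    CI X fun a => fl (g a) (b a) (c a) := by
  have := hg.comp (g := fun a => (a, c a)) (by fun_prop)
  unfold fl
  fun_prop

@[fun_prop] lemma ci_ls {u w : α → ℕ → V} (cu : CI X fun p : α × ℕ => u p.1 p.2)
    (cw : CI X fun p : α × ℕ => w p.1 p.2) (hg : CI X fun p : α × ℕ => g p.1 p.2) (hb : CI X b) :
    CI X fun a => ls (u a) (w a) (g a) (b a) := by
  unfold ls sel
  fun_prop

lemma comp_pos : Computable pos := by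
  unfold pos
  fun_prop

@[fun_prop] lemma di_abv (hb : CI X b) (hc : CI X c) : DI X fun a => Abv (b a) (c a) :=
  DI.and (by fun_prop) (DI.allLt (by fun_prop) hb)

variable (h : IsVInfinity F V) (cu : Computable u) (cw : Computable w)
include h cu cw

lemma di_loc (hg : CI X fun p : α × ℕ => g p.1 p.2) (hb : CI X b) (hc : CI X c) :
    DI X fun a => Loc F u w (g a) (b a) (c a) := by
  have h1 := di_li (X := X) h
  have h2 := comp_vec (V := V)
  exact DI.and (by fun_prop) (DI.allLt (by fun_prop) hb)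

lemma di_step (hg : CI X fun p : α × ℕ => g p.1 p.2) (hb : CI X b) (hc : CI X c) (hd : CI X d) :
    DI X fun a => Step F u w (g a) (b a) (c a) (d a) := by
  have h1 := di_li (X := X) h
  exact DI.and (by fun_prop) ((DI.allLt (by fun_prop) hc).and ((di_loc h cu cw hg hc hd).and
    (DI.allLt (di_loc h cu cw (by fun_prop) (by fun_prop) (by fun_prop)).not hd)))

/-- Every set that computes `S` is equivalent to a selection that is a basis. -/
theorem cone (hS : IsB F (sel u w S)) (hF : ∀ a k, IsB F (sel u w (fl S k)) →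
    ∃ j, Abv a j ∧ IsB F (sel u w (fl (fl S k) j))) (hZ : Red S Z) :
    ∃ T, IsB F (sel u w T) ∧ Red T Z ∧ Red Z T := by
  have h1 := di_li (X := Z) h
  have cS : CI Z S := hZ
  have cZ : CI Z Z := CI.oracle
  have cp := comp_pos
  obtain ⟨R, cR, r0, hR⟩ := exists_path (X := Z) (r := fun s s' : ℕ × ℕ × ℕ =>
    s'.2.1 = s.2.1 + 1 ∧ (∀ i < s.2.2, s'.1.testBit i = s.1.testBit i) ∧
      (∃ m, Loc F u w S s'.1 m ∧ LI F (ls u w (fl S s'.1) m)) ∧
        ∃ j, Step F u w (fl S s'.1) s.2.2 j s'.2.2 ∧ fl S s'.1 (pos j) = Z s.2.1)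
    (I := fun s => IsB F (sel u w (fl S s.1)))
    ((Sig.of_di (by fun_prop)).and ((Sig.of_di (DI.allLt (by fun_prop) (by fun_prop))).and
      ((Sig.ex (Sig.of_di ((di_loc h cu cw (by fun_prop) (by fun_prop) (by fun_prop)).and
        (by fun_prop)))).and (Sig.ex (Sig.of_di ((di_step h cu cw (by fun_prop) (by fun_prop)
          (by fun_prop) (by fun_prop)).and (by fun_prop)))))))
    (s0 := (0, 0, 0)) (by rwa [fl_zero]) (fun _ _ _ ⟨_, _, ⟨m, h2, h3⟩, _⟩ => (h2.iff hS le_rfl).1 h3)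
    fun s hs => by
      obtain ⟨l, j, m, h2, h3, h4, h5⟩ := both (hF s.2.2) hs (Z s.2.1)
      obtain ⟨n, hn⟩ := exists_loc hS l
      exact ⟨(l, s.2.1 + 1, m), rfl, h2, ⟨n, hn, h3.ls n⟩, j, h4, h5⟩
  have t1 : ∀ t, (R t).2.1 = t := fun t => by
    induction t with
    | zero => rw [r0]
    | succ t ih => rw [(hR t).1, ih]
  choose J j1 j2 using fun t => (hR t).2.2.2
  have a1 : StrictMono fun t => (R t).2.2 :=
    strictMono_nat_of_lt_succ fun t => (j1 t).1.1.lt.trans_le (j1 t).2.2.1.1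
  have a2 : ∀ t s, t ≤ s → ∀ i < (R t).2.2, (R s).1.testBit i = (R t).1.testBit i := by
    intro t s hs i hi
    induction s, hs using Nat.le_induction with
    | base => rfl
    | succ s hs ih => rw [(hR s).2.1 i (hi.trans_le (a1.monotone hs)), ih]
  let T : ℕ → Bool := fun i => fl S (R (i + 1)).1 i
  have a3 : ∀ t, ∀ i < (R t).2.2, fl S (R t).1 i = T i := fun t i hi => by
    simp only [T, fl]
    rw [← a2 t (t + (i + 1)) (by omega) i hi, a2 (i + 1) _ (by omega) i (a1.id_le (i + 1))]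
  have a4 : ∀ t, Step F u w T (R t).2.2 (J t) (R (t + 1)).2.2 := fun t => (j1 t).congr (a3 _)
  have hT : IsB F (sel u w T) := good_nf.2 fun t => ⟨(R (t + 1)).2.2,
    t.le_succ.trans (a1.id_le (t + 1)), by
      obtain ⟨m, h2, h3⟩ := (hR t).2.2.1
      rw [← ls_congr (a3 _)]
      exact ((h2.iff hS le_rfl).1 h3).ls _,
    ((a4 t).2.2.1.2 t ((a1.id_le t).trans_lt (j1 t).1.1.lt)).2.2⟩
  refine ⟨T, hT, show CI Z T by simp only [T]; fun_prop, ?_⟩
  have cT : CI T T := CI.oracle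
  obtain ⟨P, cP, p0, hP⟩ := exists_path (X := T)
    (r := fun s s' : ℕ × Bool => ∃ j, Step F u w T s.1 j s'.1 ∧ T (pos j) = s'.2)
    (I := fun s => ∃ t, s.1 = (R t).2.2) (Sig.ex (Sig.of_di ((di_step h cu cw (by fun_prop)
      (by fun_prop) (by fun_prop) (by fun_prop)).and (by fun_prop)))) (s0 := (0, false))
    ⟨0, by rw [r0]⟩ (fun s s' ⟨t, ht⟩ ⟨j, h2, _⟩ => ⟨t + 1, (Step.uniq hT (ht ▸ h2) (a4 t)).2⟩)
    fun s ⟨t, ht⟩ => ⟨(_, _), J t, ht ▸ a4 t, rfl⟩
  have p1 : ∀ t, (P t).1 = (R t).2.2 := fun t => by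
    induction t with
    | zero => rw [p0, r0]
    | succ t ih =>
      obtain ⟨j, h2, -⟩ := hP t
      exact (Step.uniq hT (ih ▸ h2) (a4 t)).2
  refine CI.of_eq (f := fun t => (P (t + 1)).2) (by fun_prop) fun t => ?_
  obtain ⟨j, h2, h3⟩ := hP t
  rw [p1 t] at h2
  rw [← h3, (Step.uniq hT h2 (a4 t)).1, ← a3 (t + 1) _
    ((lt_of_bit (pos_spec (j1 t).1.1.1)).trans_le (j1 t).2.2.1.1), j2, t1]

end eff

open Classical in
/-- The selection that is forced when there are few admissible changes. -/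
noncomputable def can (F : Type) [Field F] [Module F V] (u w : ℕ → V) (k : ℕ) : Bool :=
  decide (w k ∈ span F ((fun i => u i - w i) '' {i | i ≠ k}))

lemma dich (hx : IsB F fun i => u i - w i) (hS : IsB F (sel u w S))
    (hi : ∀ n, ∃ i, n ≤ i ∧ S i ≠ can F u w i) (a : ℕ) :
    ∃ j, Abv a j ∧ IsB F (sel u w (fl S j)) := by
  classical
  by_contra hn
  obtain ⟨n, h1⟩ := cofinite (a := a) hx hS (y' := sel u w fun i => !S i)
    (s := fun i => bif S i then 1 else -1) (fun i => by cases S i <;> simp)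
    (fun i => by cases e : S i <;> simp [sel, e]) fun Q h1 h2 h3 => by
      obtain ⟨j, h4⟩ : ∃ j : ℕ, ∀ i, j.testBit i = true ↔ i ∈ Q :=
        ⟨Finset.equivBitIndices.symm Q, fun i => by
          rw [← Nat.mem_bitIndices, ← List.mem_toFinset, ← Finset.equivBitIndices_apply,
            Equiv.apply_symm_apply]⟩
      obtain ⟨i, hi⟩ := h1
      refine hn ⟨j, ⟨(Nat.zero_le i).trans_lt (lt_of_bit ((h4 i).2 hi)), fun l hl =>
        Bool.eq_false_iff.2 fun e => (h2 l ((h4 l).1 e)).not_gt hl⟩,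
        hS.exch (n := j) (fun l hl => ?_) ?_⟩
      · simp [sel, fl, Bool.eq_false_iff.2 fun e => (lt_of_bit e).not_ge hl]
      · convert h3 using 2 with l
        by_cases e : l ∈ Q
        · simp [sel, fl, e, (h4 l).2 e]
        · simp [sel, fl, e, Bool.eq_false_iff.2 (mt (h4 l).1 e)]
  obtain ⟨i, h2, h3⟩ := hi n
  have h4 := h1 i h2
  have h5 : can F u w i = true ↔ hx.bs.coord i (w i) = 0 := by simp [can, hx.mem]
  have h6 := hx.coord i i
  rw [if_pos rfl, map_sub] at h6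
  cases e : S i
  · rw [e, ne_eq, Bool.false_eq, Bool.not_eq_false, h5] at h3
    simp only [sel, e, Bool.not_false, cond_true] at h4
    simp [h3, h4] at h6
  · simp only [sel, e, Bool.not_true, cond_false] at h4
    exact h3 (e.trans (h5.2 h4).symm)

end Pool.Agent.P.MP_59a3d4_lc.Sp
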